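import Pool.Agent.W120.WM.Defs2

/-!
# Project WM2, part L2
-/

set_option autoImplicit false

open MeasureTheory Filter Topology Set

namespace Pool.Agent.W648.WM

open Pool.Agent.W120.WM

/-- the Poisson kernel -/
theorem poisson {δ : ℝ} (hδ : 0 < δ) (a : ℝ) :
    ∫⁻ t : ℝ, ENNReal.ofReal (1 / (δ ^ 2 + (t - a) ^ 2)) = ENNReal.ofReal (Real.pi / δ) := by
  have h0 : (fun t : ℝ => 1 / (δ ^ 2 + (t - a) ^ 2)) =
      fun t : ℝ => (δ ^ 2)⁻¹ * (1 + ((t - a) / δ) ^ 2)⁻¹ := by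
    funext t
    have : 0 < δ ^ 2 + (t - a) ^ 2 := by positivity
    field_simp
  have hi1 : Integrable (fun t : ℝ => (1 + (t / δ) ^ 2)⁻¹) :=
    integrable_inv_one_add_sq.comp_div hδ.ne'
  have hi : Integrable (fun t : ℝ => 1 / (δ ^ 2 + (t - a) ^ 2)) := by
    rw [h0]
    exact (hi1.comp_sub_right a).const_mul _
  rw [← ofReal_integral_eq_lintegral_ofReal hi (Eventually.of_forall fun t => by positivity)]
  congr 1
  rw [h0, integral_const_mul, integral_sub_right_eq_self (fun t : ℝ => (1 + (t / δ) ^ 2)⁻¹) a,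
    Measure.integral_comp_div (fun t : ℝ => (1 + t ^ 2)⁻¹) δ, integral_univ_inv_one_add_sq,
    abs_of_pos hδ, smul_eq_mul]
  field_simp

theorem norm_EE_le {h δ t : ℝ} (h0 : 0 < h) (h1 : h ≤ 1) (hδ : 0 < δ) (hδ1 : δ < 1 / 2) :
    ‖EE h 0 (⟨1 / 2 + δ, t⟩ : ℂ)‖ ^ 2 ≤ Real.exp 1 * Real.exp (-(h ^ 2 * t ^ 2)) := by
  unfold EE
  rw [Complex.norm_exp, ← Real.exp_nat_mul, ← Real.exp_add]
  apply Real.exp_le_exp.2
  have e1 : (((h : ℂ) ^ 2 / 2 * (⟨1 / 2 + δ, t⟩ : ℂ) ^ 2 +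
      ((0 : ℝ) : ℂ) * (⟨1 / 2 + δ, t⟩ : ℂ))).re = h ^ 2 / 2 * ((1 / 2 + δ) ^ 2 - t ^ 2) := by
    have e2 : ((h : ℂ) ^ 2 / 2) = (((h ^ 2 / 2 : ℝ)) : ℂ) := by push_cast; ring
    rw [e2, Complex.ofReal_zero, zero_mul, add_zero, Complex.re_ofReal_mul]
    congr 1
    rw [pow_two, Complex.mul_re]
    ring
  rw [e1]
  push_cast
  have h2 : h ^ 2 ≤ 1 := by nlinarith
  have h3 : (1 / 2 + δ) ^ 2 ≤ 1 := by nlinarith
  nlinarith [mul_nonneg (sub_nonneg.2 h2) (sq_nonneg (1 / 2 + δ)), sq_nonneg h]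

theorem norm_mk_sq (x y : ℝ) : ‖(⟨x, y⟩ : ℂ)‖ ^ 2 = x ^ 2 + y ^ 2 := by
  rw [← Complex.normSq_eq_norm_sq, Complex.normSq_mk]
  ring

theorem ratio_le {δ a b t : ℝ} (hδ : 0 < δ) (hat : a < t) (htb : t < b) :
    ((b - a) / (‖(⟨δ, t - a⟩ : ℂ)‖ * ‖(⟨δ, t - b⟩ : ℂ)‖)) ^ 2 ≤
      2 * (1 / (δ ^ 2 + (t - a) ^ 2) + 1 / (δ ^ 2 + (t - b) ^ 2)) := by
  obtain ⟨p, hp⟩ : ∃ p, p = ‖(⟨δ, t - a⟩ : ℂ)‖ := ⟨_, rfl⟩
  obtain ⟨q, hq⟩ : ∃ q, q = ‖(⟨δ, t - b⟩ : ℂ)‖ := ⟨_, rfl⟩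
  have hp2 : p ^ 2 = δ ^ 2 + (t - a) ^ 2 := by rw [hp, norm_mk_sq]
  have hq2 : q ^ 2 = δ ^ 2 + (t - b) ^ 2 := by rw [hq, norm_mk_sq]
  have hp0 : 0 < p := by
    have : 0 ≤ p := hp ▸ norm_nonneg _
    rcases this.lt_or_eq with h | h
    · exact h
    · rw [← h] at hp2; nlinarith [sq_nonneg (t - a), sq_pos_of_pos hδ]
  have hq0 : 0 < q := by
    have : 0 ≤ q := hq ▸ norm_nonneg _
    rcases this.lt_or_eq with h | h
    · exact h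
    · rw [← h] at hq2; nlinarith [sq_nonneg (t - b), sq_pos_of_pos hδ]
  rw [← hp, ← hq, ← hp2, ← hq2]
  have h1 : t - a ≤ p := by
    apply le_of_sq_le_sq _ hp0.le
    rw [hp2]
    nlinarith [sq_nonneg δ]
  have h2 : b - t ≤ q := by
    apply le_of_sq_le_sq _ hq0.le
    rw [hq2]
    nlinarith [sq_nonneg δ]
  have h3 : (b - a) / (p * q) ≤ 1 / q + 1 / p := by
    rw [div_add_div _ _ hq0.ne' hp0.ne', one_mul, mul_one, mul_comm q p]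
    apply div_le_div_of_nonneg_right _ (by positivity)
    linarith
  have h4 : 0 ≤ (b - a) / (p * q) := div_nonneg (by linarith) (by positivity)
  calc ((b - a) / (p * q)) ^ 2 ≤ (1 / q + 1 / p) ^ 2 := by gcongr
    _ ≤ 2 * (1 / p ^ 2 + 1 / q ^ 2) := by
        have e1 : 1 / p ^ 2 = (1 / p) ^ 2 := by rw [div_pow, one_pow]
        have e2 : 1 / q ^ 2 = (1 / q) ^ 2 := by rw [div_pow, one_pow]
        rw [e1, e2]
        nlinarith [sq_nonneg (1 / q - 1 / p)]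

theorem mem_NT {y : ℝ} (hy : riemannZeta (⟨1 / 2, y⟩ : ℂ) = 0) : (⟨1 / 2, y⟩ : ℂ) ∈ NT :=
  ⟨hy, by norm_num, by norm_num⟩

theorem tsum_Ac {S : ℝ} (hS : ∀ Z : Finset ℂ, (∀ ρ ∈ Z, ρ ∈ NT) →
    ∑ ρ ∈ Z, 1 / ‖ρ * deriv riemannZeta ρ‖ ^ 2 ≤ S) {ι : Type} (φ : ι → ℝ)
    (hφ : Function.Injective φ) (h0 : ∀ i, riemannZeta (⟨1 / 2, φ i⟩ : ℂ) = 0) :
    ∑' i, ENNReal.ofReal (Ac (φ i) ^ 2) ≤ ENNReal.ofReal S := by
  classical
  rw [ENNReal.tsum_eq_iSup_sum]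
  refine iSup_le fun s => ?_
  rw [← ENNReal.ofReal_sum_of_nonneg fun i _ => sq_nonneg _]
  apply ENNReal.ofReal_le_ofReal
  have hinj : Function.Injective (fun i => (⟨1 / 2, φ i⟩ : ℂ)) := fun i j h =>
    hφ (congrArg Complex.im h)
  have h1 := hS (s.image fun i => (⟨1 / 2, φ i⟩ : ℂ)) (fun ρ hρ => by
    obtain ⟨i, _, rfl⟩ := Finset.mem_image.1 hρ
    exact mem_NT (h0 i))
  rw [Finset.sum_image (fun i _ j _ h => hinj h)] at h1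
  refine le_trans (le_of_eq (Finset.sum_congr rfl fun i _ => ?_)) h1
  unfold Ac
  rw [div_pow, one_pow]

theorem countable_Y (H : ∀ ρ ∈ NT, ρ.re = 1 / 2 ∧ deriv riemannZeta ρ ≠ 0) :
    {y : ℝ | riemannZeta (⟨1 / 2, y⟩ : ℂ) = 0}.Countable := by
  have hd : DiscreteTopology ({y : ℝ | riemannZeta (⟨1 / 2, y⟩ : ℂ) = 0} : Set ℝ) := by
    rw [discreteTopology_subtype_iff]
    intro y hy
    have h1 := (H _ (mem_NT hy)).2
    have hne : (⟨1 / 2, y⟩ : ℂ) ≠ 1 := by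
      intro h
      have := congrArg Complex.re h
      norm_num at this
    have h2 : HasDerivAt riemannZeta (deriv riemannZeta (⟨1 / 2, y⟩ : ℂ)) (⟨1 / 2, y⟩ : ℂ) :=
      (differentiableAt_riemannZeta hne).hasDerivAt
    have h3 : HasDerivAt (fun x : ℝ => (⟨1 / 2, x⟩ : ℂ)) Complex.I y := by
      have e1 : (fun x : ℝ => (⟨1 / 2, x⟩ : ℂ)) = fun x : ℝ => (1 / 2 : ℂ) + (x : ℂ) * Complex.I := by
        funext x
        apply Complex.ext <;> simp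
      rw [e1]
      have h4 : HasDerivAt (fun x : ℝ => (x : ℂ)) 1 y := Complex.ofRealCLM.hasDerivAt
      simpa using (h4.mul_const Complex.I).const_add (1 / 2 : ℂ)
    have h5 : HasDerivAt (fun x : ℝ => riemannZeta (⟨1 / 2, x⟩ : ℂ))
        (deriv riemannZeta (⟨1 / 2, y⟩ : ℂ) * Complex.I) y := by
      have := h2.comp_of_eq y h3 rfl
      exact this
    have h6 := h5.eventually_ne (c := 0) (mul_ne_zero h1 Complex.I_ne_zero)
    rw [← disjoint_iff, Filter.disjoint_principal_right]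
    filter_upwards [h6] with x hx hx'
    exact hx hx'
  have hs : Countable ({y : ℝ | riemannZeta (⟨1 / 2, y⟩ : ℂ) = 0} : Set ℝ) :=
    TopologicalSpace.separableSpace_iff_countable.1 inferInstance
  exact hs

theorem l2 (hPT : U_PT) (hDBL : U_DBL) : U_L2 := by
  intro H
  have hRH : RHp := fun ρ hρ => (H ρ hρ).1
  obtain ⟨C1, hC1, hpt⟩ := hPT hRH
  obtain ⟨hcov, -⟩ := hDBL hRH
  refine ⟨16 * Real.pi * Real.exp 1 * C1 ^ 2, by positivity, ?_⟩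
  intro S hS δ h M hδ hδ1 hh hh1 hM
  have hM0 : 0 ≤ M := le_trans (by positivity) (hM 0)
  have hS0 : 0 ≤ S := by simpa using hS ∅ (by simp)
  -- the index set
  let A : Set ℝ := {a | ∃ b, Cons a b}
  have hA : ∀ a : A, ∃ b, Cons a b := fun a => a.2
  choose B hB using hA
  have hAY : A ⊆ {y : ℝ | riemannZeta (⟨1 / 2, y⟩ : ℂ) = 0} := fun a ⟨b, hb⟩ => hb.2.1
  have hAc : A.Countable := (countable_Y H).mono hAY
  have : Countable A := hAc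
  have hBinj : Function.Injective B := by
    intro a a' haa
    by_contra hne
    have h1 := hB a
    have h2 := hB a'
    rw [← haa] at h2
    rcases lt_or_gt_of_ne (fun h => hne (Subtype.ext h) : (a : ℝ) ≠ a') with h3 | h3
    · exact h1.2.2.2 a' ⟨h3, h2.1⟩ h2.2.1
    · exact h2.2.2.2 a ⟨h3, h1.1⟩ h1.2.1
  have hcover : {y : ℝ | riemannZeta (⟨1 / 2, y⟩ : ℂ) = 0}ᶜ ⊆ ⋃ a : A, Ioo (a : ℝ) (B a) := by
    intro t ht
    obtain ⟨a, b, hab, hat, htb⟩ := hcov t ht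
    rw [mem_iUnion]
    refine ⟨⟨a, b, hab⟩, hat, ?_⟩
    have h1 := hB ⟨a, b, hab⟩
    by_contra h2
    push Not at h2
    exact hab.2.2.2 _ ⟨h1.1, lt_of_le_of_lt h2 htb⟩ h1.2.2.1
  have hnull : volume {y : ℝ | riemannZeta (⟨1 / 2, y⟩ : ℂ) = 0} = 0 :=
    (countable_Y H).measure_zero _
  have hae : {y : ℝ | riemannZeta (⟨1 / 2, y⟩ : ℂ) = 0}ᶜ ∈ ae (volume : Measure ℝ) :=
    compl_mem_ae_iff.2 hnull
  have hstep1 : ∫⁻ t : ℝ, ‖GG h 0 (⟨1 / 2 + δ, t⟩ : ℂ)‖ₑ ^ 2 ≤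
      ∑' a : A, ∫⁻ t in Ioo (a : ℝ) (B a), ‖GG h 0 (⟨1 / 2 + δ, t⟩ : ℂ)‖ₑ ^ 2 := by
    have e0 : ∫⁻ t : ℝ, ‖GG h 0 (⟨1 / 2 + δ, t⟩ : ℂ)‖ₑ ^ 2 =
        ∫⁻ t in {y : ℝ | riemannZeta (⟨1 / 2, y⟩ : ℂ) = 0}ᶜ,
          ‖GG h 0 (⟨1 / 2 + δ, t⟩ : ℂ)‖ₑ ^ 2 := by
      have e3 : (volume : Measure ℝ).restrict {y : ℝ | riemannZeta (⟨1 / 2, y⟩ : ℂ) = 0}ᶜ =
          volume := Measure.restrict_eq_self_of_ae_mem hae
      rw [e3]
    rw [e0]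
    exact (lintegral_mono_set hcover).trans (lintegral_iUnion_le _ _)
  refine hstep1.trans ?_
  -- one interval
  have hone : ∀ a : A, ∫⁻ t in Ioo (a : ℝ) (B a), ‖GG h 0 (⟨1 / 2 + δ, t⟩ : ℂ)‖ₑ ^ 2 ≤
      ENNReal.ofReal (8 * Real.pi * Real.exp 1 * C1 ^ 2 * M / δ) *
        (ENNReal.ofReal (Ac a ^ 2) + ENNReal.ofReal (Ac (B a) ^ 2)) := by
    intro a
    obtain ⟨b, hb⟩ : ∃ b, b = B a := ⟨_, rfl⟩
    have hab := hB a
    rw [← hb] at hab ⊢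
    obtain ⟨a', ha'⟩ : ∃ a', a' = (a : ℝ) := ⟨_, rfl⟩
    rw [← ha'] at hab ⊢
    obtain ⟨Q, hQ⟩ : ∃ Q, Q = Ac a' ^ 2 + Ac b ^ 2 := ⟨_, rfl⟩
    have hQ0 : 0 ≤ Q := by rw [hQ]; positivity
    have hptw : ∀ t ∈ Ioo a' b, ‖GG h 0 (⟨1 / 2 + δ, t⟩ : ℂ)‖ₑ ^ 2 ≤
        ENNReal.ofReal (4 * Real.exp 1 * C1 ^ 2 * M * Q) *
          (ENNReal.ofReal (1 / (δ ^ 2 + (t - a') ^ 2)) +
            ENNReal.ofReal (1 / (δ ^ 2 + (t - b) ^ 2))) := by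
      intro t ht
      have h1 := hpt a' b t δ hab ht.1 ht.2 hδ hδ1 (H _ (mem_NT hab.2.1)).2
        (H _ (mem_NT hab.2.2.1)).2
      have h2 := norm_EE_le (t := t) hh hh1 hδ hδ1
      have h3 := ratio_le hδ ht.1 ht.2
      obtain ⟨R, hR⟩ : ∃ R, R = (b - a') / (‖(⟨δ, t - a'⟩ : ℂ)‖ * ‖(⟨δ, t - b⟩ : ℂ)‖) := ⟨_, rfl⟩
      rw [← hR] at h1 h3
      have hR0 : 0 ≤ R := by
        rw [hR]
        have := hab.1
        exact div_nonneg (by linarith) (by positivity)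
      obtain ⟨w, hw⟩ : ∃ w, w = 1 / (δ ^ 2 + (t - a') ^ 2) + 1 / (δ ^ 2 + (t - b) ^ 2) := ⟨_, rfl⟩
      rw [← hw] at h3
      have hw0 : 0 ≤ w := by rw [hw]; positivity
      have hA1 : 0 ≤ Ac a' := by unfold Ac; positivity
      have hA2 : 0 ≤ Ac b := by unfold Ac; positivity
      have h4 : (Ac a' + Ac b) ^ 2 ≤ 2 * Q := by
        rw [hQ]
        nlinarith [sq_nonneg (Ac a' - Ac b)]
      have hpw : ((3 + |t|) ^ δ) ^ 2 = (3 + |t|) ^ (2 * δ) := by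
        rw [← Real.rpow_natCast, ← Real.rpow_mul (by positivity)]
        congr 1
        push_cast
        ring
      have h5 : ‖GG h 0 (⟨1 / 2 + δ, t⟩ : ℂ)‖ ^ 2 ≤ 4 * Real.exp 1 * C1 ^ 2 * M * Q * w := by
        have e1 : ‖GG h 0 (⟨1 / 2 + δ, t⟩ : ℂ)‖ ^ 2 = ‖EE h 0 (⟨1 / 2 + δ, t⟩ : ℂ)‖ ^ 2 *
            ‖((⟨1 / 2 + δ, t⟩ : ℂ) * riemannZeta (⟨1 / 2 + δ, t⟩ : ℂ))⁻¹‖ ^ 2 := by
          unfold GG
          rw [div_eq_mul_inv, norm_mul, mul_pow]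
        rw [e1]
        calc ‖EE h 0 (⟨1 / 2 + δ, t⟩ : ℂ)‖ ^ 2 *
            ‖((⟨1 / 2 + δ, t⟩ : ℂ) * riemannZeta (⟨1 / 2 + δ, t⟩ : ℂ))⁻¹‖ ^ 2
            ≤ (Real.exp 1 * Real.exp (-(h ^ 2 * t ^ 2))) *
              (C1 * (3 + |t|) ^ δ * R * (Ac a' + Ac b)) ^ 2 := by
              gcongr
          _ = Real.exp 1 * C1 ^ 2 * ((3 + |t|) ^ (2 * δ) * Real.exp (-(h ^ 2 * t ^ 2))) *
              R ^ 2 * (Ac a' + Ac b) ^ 2 := by
              rw [← hpw]; ring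
          _ ≤ Real.exp 1 * C1 ^ 2 * M * (2 * w) * (2 * Q) := by
              have := hM t
              gcongr
          _ = 4 * Real.exp 1 * C1 ^ 2 * M * Q * w := by ring
      have e2 : ‖GG h 0 (⟨1 / 2 + δ, t⟩ : ℂ)‖ₑ ^ 2 =
          ENNReal.ofReal (‖GG h 0 (⟨1 / 2 + δ, t⟩ : ℂ)‖ ^ 2) := by
        rw [ENNReal.ofReal_pow (norm_nonneg _), ofReal_norm]
      rw [e2, ← ENNReal.ofReal_add (by positivity) (by positivity), ← hw,
        ← ENNReal.ofReal_mul (by positivity)]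
      exact ENNReal.ofReal_le_ofReal h5
    have hmeas : Measurable (fun t : ℝ => ENNReal.ofReal (1 / (δ ^ 2 + (t - a') ^ 2))) := by
      fun_prop
    calc ∫⁻ t in Ioo a' b, ‖GG h 0 (⟨1 / 2 + δ, t⟩ : ℂ)‖ₑ ^ 2
        ≤ ∫⁻ t in Ioo a' b, ENNReal.ofReal (4 * Real.exp 1 * C1 ^ 2 * M * Q) *
          (ENNReal.ofReal (1 / (δ ^ 2 + (t - a') ^ 2)) +
            ENNReal.ofReal (1 / (δ ^ 2 + (t - b) ^ 2))) :=
          setLIntegral_mono' measurableSet_Ioo hptw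
      _ ≤ ∫⁻ t : ℝ, ENNReal.ofReal (4 * Real.exp 1 * C1 ^ 2 * M * Q) *
          (ENNReal.ofReal (1 / (δ ^ 2 + (t - a') ^ 2)) +
            ENNReal.ofReal (1 / (δ ^ 2 + (t - b) ^ 2))) := setLIntegral_le_lintegral _ _
      _ = ENNReal.ofReal (4 * Real.exp 1 * C1 ^ 2 * M * Q) *
          (ENNReal.ofReal (Real.pi / δ) + ENNReal.ofReal (Real.pi / δ)) := by
          rw [lintegral_const_mul' _ _ ENNReal.ofReal_ne_top, lintegral_add_left hmeas,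
            poisson hδ, poisson hδ]
      _ = ENNReal.ofReal (8 * Real.pi * Real.exp 1 * C1 ^ 2 * M / δ) *
        (ENNReal.ofReal (Ac a' ^ 2) + ENNReal.ofReal (Ac b ^ 2)) := by
          rw [← ENNReal.ofReal_add (by positivity) (by positivity),
            ← ENNReal.ofReal_add (by positivity) (by positivity),
            ← ENNReal.ofReal_mul (by positivity), ← ENNReal.ofReal_mul (by positivity), ← hQ]
          congr 1
          ring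
  calc ∑' a : A, ∫⁻ t in Ioo (a : ℝ) (B a), ‖GG h 0 (⟨1 / 2 + δ, t⟩ : ℂ)‖ₑ ^ 2
      ≤ ∑' a : A, ENNReal.ofReal (8 * Real.pi * Real.exp 1 * C1 ^ 2 * M / δ) *
        (ENNReal.ofReal (Ac a ^ 2) + ENNReal.ofReal (Ac (B a) ^ 2)) := ENNReal.tsum_le_tsum hone
    _ = ENNReal.ofReal (8 * Real.pi * Real.exp 1 * C1 ^ 2 * M / δ) *
        (∑' a : A, ENNReal.ofReal (Ac a ^ 2) + ∑' a : A, ENNReal.ofReal (Ac (B a) ^ 2)) := by
        rw [ENNReal.tsum_mul_left, ENNReal.tsum_add]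
    _ ≤ ENNReal.ofReal (8 * Real.pi * Real.exp 1 * C1 ^ 2 * M / δ) *
        (ENNReal.ofReal S + ENNReal.ofReal S) := by
        gcongr
        · exact tsum_Ac hS (fun a : A => (a : ℝ)) Subtype.val_injective (fun a => (hB a).2.1)
        · exact tsum_Ac hS B hBinj (fun a => (hB a).2.2.1)
    _ = ENNReal.ofReal (16 * Real.pi * Real.exp 1 * C1 ^ 2 * M * S / δ) := by
        rw [← ENNReal.ofReal_add hS0 hS0, ← ENNReal.ofReal_mul (by positivity)]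
        congr 1
        ring

end Pool.Agent.W648.WM
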